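import Pool.Agent.Work.MP_440970_an.Bd.B03
import Pool.Agent.Work.MP_440970_an.Bd.B02
import Pool.Agent.Work.MP_440970_an.Bd.B01

/-!
# All claims proved
-/

open MeasureTheory Complex Set Filter Topology
open scoped ENNReal ComplexConjugate

namespace Pool.Agent.Work.MP_440970_an

theorem All_main : ClaimMain := by
  have hParts := claimParts
  have hSing := claimSing
  have hBb := claimBb hSing
  have hBH := claimBHadd claimPol hBb
  have hWpt := claimWpt claimPol claimPolDil claimTaylor hParts hSing
  have hW := claimW hWpt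
  have hCell := claimCell hW claimDX hBb
  have hConv := claimConvert hW claimDX hBH claimPart hCell
  have hI1 := claimI1 claimPot hSing
  have hI2 := claimI2 claimPot hSing
  have hCs := claimCs hBb hI1 hI2 claimDecay
  have hPP := claimPP claimRatio
  have hNum2 := claimNum2 claimNum1
  have hAp := claimApprox claimRS hPP claimRatio claimDecay
  have hNeg := claimNeg hAp hNum2 claimQ2 hCs
  have hStep := claimStep claimQ2
  have hDens := claimDens claimQ2 hStep
  exact claimMain claimNodes hW claimDX hConv hCs hNeg claimQ2 hDens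

theorem All_closure (p : ℝ) (hp : 0 < p) (hp' : p ≤ 9 / 25)
    (g : ℂ → ℂ) (hg : MemLp g (ENNReal.ofReal p) volume) (ε : ℝ) (hε : 0 < ε) :
    ∃ f ∈ X, MemLp f (ENNReal.ofReal p) volume ∧
      ∫⁻ z, ‖g z - f z‖ₑ ^ p < ENNReal.ofReal ε :=
  Final_closure All_main claimDX p hp hp' g hg ε hε

end Pool.Agent.Work.MP_440970_an
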